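import Pool.Agent.SHA.Stmts

set_option autoImplicit false

/-!
# SHA: row LD2 (helper23)
-/

namespace Pool.Agent.SHA.H23

open Pool.Agent.SHA

universe u

open Classical in
theorem split_sum {U : Type u} (S : Finset U) (z : U → ℝ) (hz : ∀ f ∈ S, 0 ≤ z f ∧ z f ≤ 1) :
    ∑ f ∈ S, z f = ((S.filter (fun f => z f = 1)).card : ℝ) +
      ∑ f ∈ S.filter (fun f => 0 < z f ∧ z f < 1), z f := by
  rw [Finset.card_eq_sum_ones, Nat.cast_sum, Finset.sum_filter, Finset.sum_filter,
    ← Finset.sum_add_distrib]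
  refine Finset.sum_congr rfl fun f hf => ?_
  obtain ⟨h0, h1⟩ := hz f hf
  by_cases h : z f = 1
  · rw [if_pos h, if_neg (by rintro ⟨_, h2⟩; linarith)]; simp [h]
  · rw [if_neg h]
    by_cases h2 : 0 < z f
    · rw [if_pos ⟨h2, lt_of_le_of_ne h1 h⟩, zero_add]
    · rw [if_neg (fun h3 => h2 h3.1)]
      linarith

theorem exc_le {y : ℝ} (hy : 1 ≤ y) (t : ℝ) : max t 0 ≤ y * Real.exp (1 / y * t - 1) := by
  have hy0 : (0 : ℝ) < y := by linarith
  refine max_le ?_ (by positivity)
  have h := Real.add_one_le_exp (1 / y * t - 1)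
  have h2 : 1 / y * t ≤ Real.exp (1 / y * t - 1) := by linarith
  have h3 := mul_le_mul_of_nonneg_left h2 hy0.le
  have h4 : y * (1 / y * t) = t := by field_simp
  linarith

open Classical in
theorem ld2 (hL : LPRStmt.{u}) (hR : RNDStmt.{u}) (hM : REMStmt.{u}) : LD2Stmt.{u} := by
  intro U F Q x q y hy hyk hx hload
  have hy0 : (0 : ℝ) < y := by linarith
  obtain ⟨z, hz, hzl, hzs, hzc⟩ := hL U F Q x hx
  set B := F.filter (fun f => z f = 1) with hB
  set G := F.filter (fun f => 0 < z f ∧ z f < 1) with hG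
  have hBF : B ⊆ F := Finset.filter_subset _ _
  have hGF : G ⊆ F := Finset.filter_subset _ _
  have hBG : Disjoint B G := by
    rw [Finset.disjoint_left]
    intro f hf hf'
    have h1 := (Finset.mem_filter.1 hf).2
    have h2 := (Finset.mem_filter.1 hf').2.2
    linarith
  set lam : ℝ := 1 / y with hlam
  have hl0 : 0 < lam := by positivity
  have hl1 : lam ≤ 1 := by rw [hlam, div_le_one hy0]; exact hy
  have hly : lam * y = 1 := by rw [hlam]; field_simp
  set E : ℝ := Real.exp lam with hE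
  have hE1 : 1 ≤ E := Real.one_le_exp hl0.le
  have hE2 : E - 1 ≤ lam + lam ^ 2 := by
    have h := Real.abs_exp_sub_one_sub_id_le (x := lam) (by rw [abs_of_pos hl0]; exact hl1)
    have h2 := (abs_le.1 h).2
    rw [← hE] at h2
    linarith
  set c : Set U → ℝ := fun O =>
    y * Real.exp (lam * (((B.filter (fun f => f ∈ O)).card : ℝ) - q) - 1) with hc
  obtain ⟨A, hAG, hA⟩ := hR U G Q z c E (fun f hf => hz f (hGF hf))
  -- the sum over all of F
  have hFsum : ∑ f ∈ F, z f = (B.card : ℝ) + ∑ f ∈ G, z f := split_sum F z hz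
  -- loads
  have hlo : ∀ O ∈ Q, ((B.filter (fun f => f ∈ O)).card : ℝ) +
      ∑ f ∈ G.filter (fun f => f ∈ O), z f ≤ q - 2 * y ^ 2 := by
    intro O hO
    have h1 := split_sum (F.filter (fun f => f ∈ O)) z
      (fun f hf => hz f (Finset.mem_filter.1 hf).1)
    have e1 : (F.filter (fun f => f ∈ O)).filter (fun f => z f = 1) =
        B.filter (fun f => f ∈ O) := Finset.filter_comm _ _ _
    have e2 : (F.filter (fun f => f ∈ O)).filter (fun f => 0 < z f ∧ z f < 1) =
        G.filter (fun f => f ∈ O) := Finset.filter_comm _ _ _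
    rw [e1, e2] at h1
    have h2 := hload O hO
    rw [← hzl O hO] at h2
    linarith
  -- part (b)
  have hb : ∀ O ∈ Q, c O * ∏ f ∈ G.filter (fun f => f ∈ O), (1 + z f * (E - 1)) ≤
      y * Real.exp (-y - 1) := by
    intro O hO
    have h1 : ∏ f ∈ G.filter (fun f => f ∈ O), (1 + z f * (E - 1)) ≤
        Real.exp (∑ f ∈ G.filter (fun f => f ∈ O), z f * (E - 1)) := by
      rw [Real.exp_sum]
      refine Finset.prod_le_prod (fun f hf => ?_) (fun f hf => ?_)
      · have h3 := (hz f (hGF (Finset.mem_filter.1 hf).1)).1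
        have h4 := mul_nonneg h3 (sub_nonneg.2 hE1)
        linarith
      · rw [add_comm]; exact Real.add_one_le_exp _
    have hs0 : 0 ≤ ∑ f ∈ G.filter (fun f => f ∈ O), z f :=
      Finset.sum_nonneg fun f hf => (hz f (hGF (Finset.mem_filter.1 hf).1)).1
    have hs1 : ∑ f ∈ G.filter (fun f => f ∈ O), z f ≤ y ^ 3 := by
      calc ∑ f ∈ G.filter (fun f => f ∈ O), z f ≤ ∑ f ∈ G.filter (fun f => f ∈ O), (1 : ℝ) :=
            Finset.sum_le_sum fun f hf => (hz f (hGF (Finset.mem_filter.1 hf).1)).2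
        _ = ((G.filter (fun f => f ∈ O)).card : ℝ) := by simp
        _ ≤ (G.card : ℝ) := by exact_mod_cast Finset.card_filter_le _ _
        _ ≤ (Q.card : ℝ) := by exact_mod_cast hzc
        _ = y ^ 3 := hyk.symm
    have h2 : ∑ f ∈ G.filter (fun f => f ∈ O), z f * (E - 1) ≤
        lam * (∑ f ∈ G.filter (fun f => f ∈ O), z f) + y := by
      rw [← Finset.sum_mul]
      have h3 := mul_le_mul_of_nonneg_left hE2 hs0
      have h4 : lam ^ 2 * (∑ f ∈ G.filter (fun f => f ∈ O), z f) ≤ lam ^ 2 * y ^ 3 :=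
        mul_le_mul_of_nonneg_left hs1 (by positivity)
      have h5 : lam ^ 2 * y ^ 3 = y := by
        have : lam ^ 2 * y ^ 3 = (lam * y) ^ 2 * y := by ring
        rw [this, hly]; ring
      nlinarith
    have hcpos : 0 ≤ c O := by simp only [hc]; positivity
    calc c O * ∏ f ∈ G.filter (fun f => f ∈ O), (1 + z f * (E - 1))
        ≤ c O * Real.exp (lam * (∑ f ∈ G.filter (fun f => f ∈ O), z f) + y) :=
          mul_le_mul_of_nonneg_left (h1.trans (Real.exp_le_exp.2 h2)) hcpos
      _ = y * Real.exp ((lam * (((B.filter (fun f => f ∈ O)).card : ℝ) - q) - 1) +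
            (lam * (∑ f ∈ G.filter (fun f => f ∈ O), z f) + y)) := by
          simp only [hc]; rw [mul_assoc, ← Real.exp_add]
      _ ≤ y * Real.exp (-y - 1) := by
          refine mul_le_mul_of_nonneg_left (Real.exp_le_exp.2 ?_) hy0.le
          have h6 := mul_le_mul_of_nonneg_left (hlo O hO) hl0.le
          have h7 : lam * (2 * y ^ 2) = 2 * y := by
            have : lam * (2 * y ^ 2) = 2 * (lam * y) * y := by ring
            rw [this, hly]; ring
          nlinarith
  have hbsum : ∑ O ∈ Q, c O * ∏ f ∈ G.filter (fun f => f ∈ O), (1 + z f * (E - 1)) ≤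
      y ^ 4 * Real.exp (-y - 1) := by
    calc _ ≤ ∑ O ∈ Q, y * Real.exp (-y - 1) := Finset.sum_le_sum hb
      _ = (Q.card : ℝ) * (y * Real.exp (-y - 1)) := by simp
      _ = y ^ 4 * Real.exp (-y - 1) := by rw [← hyk]; ring
  -- part (a)
  have hBA : Disjoint B A := hBG.mono_right hAG
  have hcardO : ∀ O : Set U, ((B ∪ A).filter (fun f => f ∈ O)).card =
      (B.filter (fun f => f ∈ O)).card + (A.filter (fun f => f ∈ O)).card := by
    intro O
    rw [Finset.filter_union, Finset.card_union_of_disjoint]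
    exact hBA.mono (Finset.filter_subset _ _) (Finset.filter_subset _ _)
  have ha : ∀ O ∈ Q, (((((B ∪ A).filter (fun f => f ∈ O)).card - q : ℕ)) : ℝ) ≤
      c O * E ^ (A.filter (fun f => f ∈ O)).card := by
    intro O _
    have h1 : (((((B ∪ A).filter (fun f => f ∈ O)).card - q : ℕ)) : ℝ) ≤
        max ((((B.filter (fun f => f ∈ O)).card : ℝ) + ((A.filter (fun f => f ∈ O)).card : ℝ)) - q)
          0 := by
      rw [hcardO]
      rcases le_total q ((B.filter (fun f => f ∈ O)).card + (A.filter (fun f => f ∈ O)).card) with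
        h | h
      · rw [Nat.cast_sub h]; push_cast; exact le_max_left _ _
      · rw [Nat.sub_eq_zero_of_le h]; simp
    refine h1.trans ((exc_le hy _).trans (le_of_eq ?_))
    simp only [hc, hE]
    rw [← Real.exp_nat_mul, mul_assoc, ← Real.exp_add]
    congr 2
    rw [hlam]; ring
  obtain ⟨T, hT, hTq, hTc⟩ := hM U (B ∪ A) Q q
  refine ⟨T, hT.trans (Finset.union_subset hBF (hAG.trans hGF)), hTq, ?_⟩
  have h1 : ((B ∪ A).card : ℝ) ≤ (T.card : ℝ) +
      ∑ O ∈ Q, c O * E ^ (A.filter (fun f => f ∈ O)).card := by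
    have h2 : ((B ∪ A).card : ℝ) ≤ (T.card : ℝ) +
        ∑ O ∈ Q, (((((B ∪ A).filter (fun f => f ∈ O)).card - q : ℕ)) : ℝ) := by
      exact_mod_cast hTc
    have h3 := Finset.sum_le_sum ha
    linarith
  rw [Finset.card_union_of_disjoint hBA] at h1
  push_cast at h1
  linarith

end Pool.Agent.SHA.H23
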