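import Pool.Agent.SHA.Stmts

set_option autoImplicit false

/-!
# SHA: row RND (helper23)
-/

namespace Pool.Agent.SHA.H23

open Pool.Agent.SHA

universe u

open Classical in
theorem rnd : RNDStmt.{u} := by
  intro U G Q x c E
  induction G using Finset.induction_on generalizing c with
  | empty =>
    intro _
    exact ⟨∅, Finset.Subset.refl _, by simp⟩
  | insert a G' ha ih =>
    intro hx
    have hxa := hx a (Finset.mem_insert_self a G')
    have hx' : ∀ f ∈ G', 0 ≤ x f ∧ x f ≤ 1 := fun f hf => hx f (Finset.mem_insert_of_mem hf)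
    set EO : Set U → ℝ := fun O => if a ∈ O then E else 1 with hEO
    set P : Set U → ℝ := fun O => ∏ f ∈ G'.filter (fun f => f ∈ O), (1 + x f * (E - 1)) with hP
    obtain ⟨A, hA, hA1⟩ := ih c hx'
    obtain ⟨A', hA', hA1'⟩ := ih (fun O => c O * EO O) hx'
    have hprod : ∀ O : Set U, ∏ f ∈ (insert a G').filter (fun f => f ∈ O), (1 + x f * (E - 1)) =
        (1 + x a * (EO O - 1)) * P O := by
      intro O
      rw [Finset.filter_insert]
      by_cases h : a ∈ O
      · rw [if_pos h, Finset.prod_insert (by simp [ha])]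
        simp [hEO, hP, h]
      · rw [if_neg h]; simp [hEO, hP, h]
    have hsum : ∑ f ∈ insert a G', x f = x a + ∑ f ∈ G', x f := Finset.sum_insert ha
    have key : ∑ f ∈ insert a G', x f -
        ∑ O ∈ Q, c O * ∏ f ∈ (insert a G').filter (fun f => f ∈ O), (1 + x f * (E - 1)) =
        (1 - x a) * (∑ f ∈ G', x f - ∑ O ∈ Q, c O * P O) +
          x a * (1 + ∑ f ∈ G', x f - ∑ O ∈ Q, (c O * EO O) * P O) := by
      rw [hsum]
      have h3 : ∑ O ∈ Q, c O * ∏ f ∈ (insert a G').filter (fun f => f ∈ O), (1 + x f * (E - 1)) =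
          (1 - x a) * ∑ O ∈ Q, c O * P O + x a * ∑ O ∈ Q, (c O * EO O) * P O := by
        rw [Finset.mul_sum, Finset.mul_sum, ← Finset.sum_add_distrib]
        refine Finset.sum_congr rfl fun O _ => ?_
        rw [hprod]; ring
      rw [h3]; ring
    by_cases hle : (∑ f ∈ G', x f - ∑ O ∈ Q, c O * P O) ≤
        (1 + ∑ f ∈ G', x f - ∑ O ∈ Q, (c O * EO O) * P O)
    · refine ⟨insert a A', Finset.insert_subset_insert a hA', ?_⟩
      have hna : a ∉ A' := fun h => ha (hA' h)
      have h1 : (insert a A').card = A'.card + 1 := Finset.card_insert_of_notMem hna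
      have h2 : ∑ O ∈ Q, c O * E ^ ((insert a A').filter (fun f => f ∈ O)).card =
          ∑ O ∈ Q, c O * EO O * E ^ (A'.filter (fun f => f ∈ O)).card := by
        refine Finset.sum_congr rfl fun O _ => ?_
        rw [Finset.filter_insert]
        by_cases h : a ∈ O
        · rw [if_pos h, Finset.card_insert_of_notMem (by simp [hna])]
          simp only [hEO, if_pos h, pow_succ]; ring
        · rw [if_neg h]; simp [hEO, h]
      rw [key, h1, h2]
      push_cast
      have h4 := mul_nonneg (sub_nonneg.2 hxa.2) (sub_nonneg.2 hle)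
      have hA2 : ∑ f ∈ G', x f - ∑ O ∈ Q, (c O * EO O) * P O ≤
          (A'.card : ℝ) - ∑ O ∈ Q, c O * EO O * E ^ (A'.filter (fun f => f ∈ O)).card := hA1'
      nlinarith
    · refine ⟨A, hA.trans (Finset.subset_insert a G'), ?_⟩
      rw [key]
      have h4 := mul_nonneg hxa.1 (sub_nonneg.2 (le_of_not_ge hle))
      have hA2 : ∑ f ∈ G', x f - ∑ O ∈ Q, c O * P O ≤
          (A.card : ℝ) - ∑ O ∈ Q, c O * E ^ (A.filter (fun f => f ∈ O)).card := hA1
      nlinarith

end Pool.Agent.SHA.H23
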